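import Mathlib
import Pool.Agent.Lib.MP_4b5926_gt.ExchangeN

/-!
# Property (D) implies that `Z` meets the diagonal when `Z` has aposyndetic chains

Let `X` be a metric continuum with property (D) and `Z` a subcontinuum of `X × X`. Suppose that `Z` contains a
nonempty closed set `W` whose second projection is contained in its first projection and that `X` is aposyndetic
at `y` with respect to `x` for every `(x, y)` in `W` (some subcontinuum of `X` misses `x` and contains `y` in its
interior). Then `Z` meets the diagonal.
-/

/-- Let `X` be a metric continuum such that every subcontinuum of `X × X` containing `(A, B)` and `(B, A)` meets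
the diagonal, `Z` a subcontinuum of `X × X`, and `W` a nonempty closed subset of `Z` with `π₂ W ⊆ π₁ W`. If for
every `(x, y)` in `W` some subcontinuum of `X` misses `x` and is a neighbourhood of `y`, then `Z` meets the
diagonal. -/
theorem Pool.Agent.Results.MP_4b5926_gt.AposyndeticChains.result
    (X : Type) [MetricSpace X] [CompactSpace X] [ConnectedSpace X]
    (hD : ∀ A B : X, ∀ K : Set (X × X), IsCompact K → IsConnected K →
      (A, B) ∈ K → (B, A) ∈ K → ∃ x : X, (x, x) ∈ K)
    (Z : Set (X × X)) (hZ : IsCompact Z) (hZc : IsConnected Z)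
    (W : Set (X × X)) (hWZ : W ⊆ Z) (hW : IsClosed W) (hne : W.Nonempty)
    (hsub : Prod.snd '' W ⊆ Prod.fst '' W)
    (hapo : ∀ p ∈ W, ∃ H : Set X, IsCompact H ∧ IsConnected H ∧ p.2 ∈ interior H ∧ p.1 ∉ H) :
    ∃ x : X, (x, x) ∈ Z :=
  Pool.Agent.MP_4b5926_gt.ExchangeN.aposyndetic hD Z hZ hZc W hWZ hW hne hsub hapo
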