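import Pool.Agent.Lib.MP_4b5926_gt.MLSpan
import Pool.Agent.Lib.MP_4b5926_gt.Fact

set_option autoImplicit false

namespace Pool.Agent.Results.MP_4b5926_gt.GoodCuts

open Pool.MP_4b5926_gt

lemma fold_thm : MP4b5926.FoldThm := by
  intro V _ T hT A lam hns
  obtain ⟨h, h1, h2⟩ := LAB.fact_tree T hT lam (by
    intro x y hxy hc
    exact hns ⟨x, y, hxy, hc⟩)
  refine ⟨fun v => (h v : ℤ), ?_, ?_⟩
  · intro u v huv
    have a := h1 u v huv
    have b := h1 v u huv.symm
    rw [abs_le]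
    constructor <;> push_cast <;> omega
  · intro u v huv
    exact h2 u v (Int.ofNat_inj.1 huv)

/-- Let `X` be a tree-like continuum with property (D). If for every `ε > 0` there are finitely
many closed sets `P i` of diameter less than `ε` covering `X` such that every component of the
intersection of two of them has less than half the diameter of every component of every `P i`, then
`X` is chainable, and every subcontinuum `Z` of its square whose second projection is contained in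
its first projection meets the diagonal. -/
theorem result :
    ∀ (X : Type) [MetricSpace X] [CompactSpace X] [ConnectedSpace X],
      (∀ ε : ℝ, 0 < ε → ∃ n : ℕ, ∃ U : Fin n → Set X,
        (∀ i, IsOpen (U i)) ∧ (∀ i, (U i).Nonempty) ∧
        (∀ i, Metric.diam (U i) < ε) ∧ (⋃ i, U i) = Set.univ ∧
        (∀ i j k, i ≠ j → j ≠ k → i ≠ k → U i ∩ U j ∩ U k = ∅) ∧
        (SimpleGraph.fromRel (fun i j : Fin n => (U i ∩ U j).Nonempty)).IsTree) →
      (∀ A B : X, ∀ K : Set (X × X), IsCompact K → IsConnected K →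
        (A, B) ∈ K → (B, A) ∈ K → ∃ x : X, (x, x) ∈ K) →
      (∀ ε : ℝ, 0 < ε → ∃ n : ℕ, ∃ P : Fin n → Set X, ∃ δ : ℝ,
        (∀ i, IsClosed (P i)) ∧ (⋃ i, P i) = Set.univ ∧ (∀ i, Metric.diam (P i) < ε) ∧
        (∀ i, ∀ x ∈ P i, δ ≤ Metric.diam (connectedComponentIn (P i) x)) ∧
        (∀ i j, i ≠ j → ∀ x ∈ P i ∩ P j,
          2 * Metric.diam (connectedComponentIn (P i ∩ P j) x) < δ)) →
      (∀ ε : ℝ, 0 < ε → ∃ n : ℕ, ∃ C : Fin n → Set X,
        (∀ i, IsOpen (C i)) ∧ (∀ i, (C i).Nonempty) ∧ (∀ i, Metric.diam (C i) < ε) ∧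
        (⋃ i, C i) = Set.univ ∧
        (∀ i j : Fin n, (C i ∩ C j).Nonempty ↔ ((i : ℕ) ≤ (j : ℕ) + 1 ∧ (j : ℕ) ≤ (i : ℕ) + 1))) ∧
      ∀ Z : Set (X × X), IsCompact Z → IsConnected Z →
        Prod.snd '' Z ⊆ Prod.fst '' Z → ∃ x : X, (x, x) ∈ Z := by
  intro X _ _ _ hT hD hG
  exact MP4b5926.good_main fold_thm hT hD hG

end Pool.Agent.Results.MP_4b5926_gt.GoodCuts
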