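import Mathlib
import Pool.Agent.Lib.MP_4b5926_gt.ExchangeN

/-!
# Continua of positive span are nearly symmetric off the diagonal

Let `X` be a metric continuum (not necessarily tree-like), `Z` a subcontinuum of `X × X` that misses the
diagonal, and `W` a nonempty closed subset of `Z` whose second projection is contained in its first projection
(for instance `W = Z` if the two projections of `Z` are equal). Then for every `η > 0` there are `(A, B)` in
`W`, a point `B'` at distance less than `η` from `B`, and a subcontinuum `K` of `X × X` that misses the diagonal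
and contains `(B, A)` and `(A, B')`.
-/

/-- Let `X` be a metric continuum, `Z` a subcontinuum of `X × X` that misses the diagonal and `W` a nonempty
closed subset of `Z` with `π₂ W ⊆ π₁ W`. For every `η > 0` some subcontinuum of `X × X` misses the diagonal and
contains `(B, A)` and `(A, B')` for some `(A, B)` in `W` and some `B'` at distance less than `η` from `B`. -/
theorem Pool.Agent.Results.MP_4b5926_gt.NearlySymmetric.result
    (X : Type) [MetricSpace X] [CompactSpace X] [ConnectedSpace X]
    (Z : Set (X × X)) (hZ : IsCompact Z) (hZc : IsConnected Z) (hdiag : ∀ x : X, (x, x) ∉ Z)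
    (W : Set (X × X)) (hWZ : W ⊆ Z) (hW : IsClosed W) (hne : W.Nonempty)
    (hsub : Prod.snd '' W ⊆ Prod.fst '' W) (η : ℝ) (hη : 0 < η) :
    ∃ K : Set (X × X), IsCompact K ∧ IsConnected K ∧ (∀ x : X, (x, x) ∉ K) ∧
      ∃ A B B' : X, (A, B) ∈ W ∧ dist B B' < η ∧ (B, A) ∈ K ∧ (A, B') ∈ K :=
  Pool.Agent.MP_4b5926_gt.ExchangeN.nearly_symmetric Z hZ hZc hdiag W hWZ hW hne hsub η hη
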