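import Pool.Agent.Lib.MP_4b5926_gt.InvLim

/-!
# Inverse limits of trees with simplicial bonding maps: (D) implies arc-like, hence span zero

Let `M` be the inverse limit of a sequence of finite trees with surjective simplicial bonding
maps, and suppose that every subcontinuum of `M × M` which contains two points `(A, B)` and
`(B, A)` meets the diagonal (property (D)).  Then `M` is arc-like, and every subcontinuum `Z` of
`M × M` with `π₂(Z) ⊆ π₁(Z)` meets the diagonal.

The proof is by a finite theorem on two tokens moving on a tree: if the labels of the two tokens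
have to be different at all times and no two places can be exchanged, then the labelling factors
through an arc.
-/

set_option autoImplicit false

namespace Pool.Agent.Results.MP_4b5926_gt.SimplicialLimits

/-- The geometric realization of a graph `T` with finite vertex set `V` that has no triangle (for
example a tree), in barycentric coordinates: the weights `w v ≥ 0` with sum `1` whose support is a
vertex or the two ends of an edge. -/
def realization {V : Type} [Fintype V] (T : SimpleGraph V) : Set (V → ℝ) :=
  {w | (∀ v, 0 ≤ w v) ∧ ∑ v, w v = 1 ∧ ∀ u v, w u ≠ 0 → w v ≠ 0 → u = v ∨ T.Adj u v}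

/-- The map of realizations given by a map `f` of vertices: it is affine and sends the vertex `v`
to the vertex `f v`. -/
def affineMap {V W : Type} [Fintype V] [DecidableEq W] (f : V → W) (w : V → ℝ) : W → ℝ :=
  fun b => ∑ v, if f v = b then w v else 0

/-- The inverse limit of the realizations of `T 0 ← T 1 ← T 2 ← ...` with bonding maps `f i`, as a
subspace of the product. -/
def inverseLimit {n : ℕ → ℕ} (T : ∀ i, SimpleGraph (Fin (n i)))
    (f : ∀ i, Fin (n (i + 1)) → Fin (n i)) : Set (∀ i, Fin (n i) → ℝ) :=
  {w | ∀ i, w i ∈ realization (T i) ∧ affineMap (f i) (w (i + 1)) = w i}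

/-- Let `X` be a metric space homeomorphic to the inverse limit of finite trees `T i` with
simplicial bonding maps `f i` that are onto.  If every subcontinuum of `X × X` containing `(A, B)`
and `(B, A)` for some `A`, `B` meets the diagonal, then `X` is arc-like (for every `ε > 0` it has a
continuous map to the line whose fibres have diameter less than `ε` in the sense that any two
points of a fibre have distance less than `ε`), and every subcontinuum `Z` of `X × X` with
`π₂(Z) ⊆ π₁(Z)` meets the diagonal. -/
theorem result :
    ∀ (n : ℕ → ℕ) (T : ∀ i, SimpleGraph (Fin (n i))) (f : ∀ i, Fin (n (i + 1)) → Fin (n i)),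
      (∀ i, (T i).IsTree) →
      (∀ i u v, (T (i + 1)).Adj u v → f i u = f i v ∨ (T i).Adj (f i u) (f i v)) →
      (∀ i, Function.Surjective (f i)) →
      ∀ (X : Type) [MetricSpace X], Nonempty (X ≃ₜ inverseLimit T f) →
        (∀ A B : X, ∀ K : Set (X × X), IsCompact K → IsConnected K →
          (A, B) ∈ K → (B, A) ∈ K → ∃ x : X, (x, x) ∈ K) →
        (∀ ε : ℝ, 0 < ε → ∃ g : X → ℝ, Continuous g ∧ ∀ x y, g x = g y → dist x y < ε) ∧
        ∀ Z : Set (X × X), IsCompact Z → IsConnected Z → Prod.snd '' Z ⊆ Prod.fst '' Z →
          ∃ x : X, (x, x) ∈ Z := by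
  intro n T f hT hf hs X _ he hD
  obtain ⟨e⟩ := he
  exact Pool.MP_4b5926_gt.main T f hT hf hs X e hD

end Pool.Agent.Results.MP_4b5926_gt.SimplicialLimits
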